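import Pool.Agent.H.MP_a721b7_an.A

set_option autoImplicit false

namespace Pool.Agent.Results.MP_a721b7_an.Char

/-- one forcing step between ordered pairs of elements -/
def Step {X : Type*} (R : X → X → Prop) (p q : X × X) : Prop :=
  ∃ x, (p.2 = q.2 ∧ R x p.1 ∧ R x q.1 ∧ ¬ R x p.2) ∨ (p.1 = q.1 ∧ R x p.2 ∧ R x q.2 ∧ ¬ R x p.1)

theorem result {X : Type*} [Nonempty X] (R : X → X → Prop) :
    (∃ f g h : X → ℝ, ∀ x y, R x y ↔ f x < g y ∧ g y < h x) ↔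
      (∀ a b, ¬ Relation.TransGen (Step R) (a, b) (b, a)) ∧
      ∃ C : Set X, C.Countable ∧ ∀ x y, R x y → ∃ u ∈ C, ∃ v ∈ C, R u y ∧ R v y ∧
        ∀ z, R u z → R v z → R x z := by
  constructor
  · rintro ⟨f, g, h, H⟩
    refine ⟨fun a b hab => ?_, Pool.Agent.H.MP_a721b7_an.nec2 H⟩
    obtain ⟨h1, h2⟩ := Pool.Agent.H.MP_a721b7_an.nec1 H hab
    rcases lt_or_gt_of_ne h2 with h3 | h3
    · exact lt_asymm h3 (h1.1 h3)
    exact lt_asymm h3 (h1.2 h3)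
  rintro ⟨h1, C, h2, h3⟩
  refine Pool.Agent.H.MP_a721b7_an.suff (fun a b hab h => ?_) h2 h3
  rcases Relation.reflTransGen_iff_eq_or_transGen.1 h with h | h
  · exact hab (Prod.ext_iff.1 h).2
  exact h1 a b h

end Pool.Agent.Results.MP_a721b7_an.Char
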